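import Pool.Agent.HAR.Stmts

/-!
# Squad HAR, row ONE: most sets have at most one embedding
-/

set_option autoImplicit false

namespace Pool.Agent.HAR.H76

open Finset Filter Topology Pool.Agent.HAR

variable {n : ℕ} {G H : SimpleGraph (Fin n)}

/-- embeddings with the same image of two sets, one of them unique, are equal -/
theorem key {I I' : Finset (Fin n)} {f f' : Fin n → Fin n} (hc : I.card = I'.card)
    (hf : IsE G H I f) (hf' : IsE G H I' f') (hu : Uq G I)
    (he : I.image f = I'.image f') : I = I' ∧ ∀ x ∈ I, f x = f' x := by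
  classical
  have hex : ∀ x : Fin n, ∃ y, x ∈ I → y ∈ I' ∧ f' y = f x := by
    intro x
    by_cases hx : x ∈ I
    · have h1 : f x ∈ I'.image f' := he ▸ mem_image_of_mem f hx
      obtain ⟨y, hy, hy'⟩ := mem_image.1 h1
      exact ⟨y, fun _ => ⟨hy, hy'⟩⟩
    · exact ⟨x, fun h => absurd h hx⟩
  choose h hh using hex
  have hE : IsE G G I h := by
    refine ⟨?_, ?_⟩
    · intro x hx y hy hxy
      apply hf.1 hx hy
      rw [← (hh x hx).2, ← (hh y hy).2, hxy]
    · intro x hx y hy
      rw [← hf.2 x hx y hy, ← (hh x hx).2, ← (hh y hy).2]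
      exact (hf'.2 _ (hh x hx).1 _ (hh y hy).1).symm
  have hid := hu h hE
  have hsub : I ⊆ I' := by
    intro x hx
    have := (hh x hx).1
    rwa [hid x hx] at this
  refine ⟨eq_of_subset_of_card_le hsub hc.ge, fun x hx => ?_⟩
  have := (hh x hx).2
  rw [hid x hx] at this
  exact this.symm

/-- ONE -/
theorem one : OneStmt := by
  classical
  intro n k G H
  have hex : ∀ I : Finset (Fin n), ∃ f : Fin n → Fin n, Em G H I → IsE G H I f := by
    intro I
    by_cases h : Em G H I
    · obtain ⟨f, hf⟩ := h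
      exact ⟨f, fun _ => hf⟩
    · exact ⟨id, fun h' => absurd h' h⟩
  choose F hF using hex
  have hex2 : ∀ I : Finset (Fin n), ∃ g : Fin n → Fin n, Em G H I → ¬ One G H I →
      IsE G H I g ∧ ∃ x ∈ I, F I x ≠ g x := by
    intro I
    by_cases h : Em G H I ∧ ¬ One G H I
    · by_contra hcon
      push Not at hcon
      apply h.2
      have h1 : ∀ g, IsE G H I g → ∀ x ∈ I, F I x = g x := by
        intro g hg
        exact (hcon g).2.2 hg
      refine ⟨h.1, fun f g hf hg x hx => ?_⟩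
      rw [← h1 f hf x hx, h1 g hg x hx]
    · exact ⟨id, fun h1 h2 => absurd ⟨h1, h2⟩ h⟩
  choose K hK using hex2
  rw [← Nat.card_sum]
  have hcard : Nat.card {S : Finset (Fin n) // S.card = k} = n.choose k := by
    rw [Nat.card_eq_fintype_card, Fintype.card_finset_len, Fintype.card_fin]
  rw [← hcard]
  have himg : ∀ (I : Finset (Fin n)) (f : Fin n → Fin n), I.card = k → IsE G H I f →
      (I.image f).card = k := by
    intro I f hI hf
    rw [card_image_of_injOn hf.1, hI]
  refine Nat.card_le_card_of_injective (Sum.elim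
    (fun I : {I : Finset (Fin n) // I.card = k ∧ Uq G I ∧ Em G H I} =>
      (⟨I.1.image (F I.1), himg _ _ I.2.1 (hF _ I.2.2.2)⟩ : {S : Finset (Fin n) // S.card = k}))
    (fun I : {I : Finset (Fin n) // I.card = k ∧ Uq G I ∧ Em G H I ∧ ¬ One G H I} =>
      (⟨I.1.image (K I.1), himg _ _ I.2.1 (hK _ I.2.2.2.1 I.2.2.2.2).1⟩ :
        {S : Finset (Fin n) // S.card = k}))) ?_
  rintro (I | I) (I' | I') h
  · have h1 := congrArg Subtype.val h
    change I.1.image (F I.1) = I'.1.image (F I'.1) at h1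
    have h2 := (key (I.2.1.trans I'.2.1.symm) (hF _ I.2.2.2) (hF _ I'.2.2.2) I.2.2.1 h1).1
    rw [Subtype.ext h2]
  · exfalso
    have h1 := congrArg Subtype.val h
    change I.1.image (F I.1) = I'.1.image (K I'.1) at h1
    obtain ⟨h2, h3⟩ := key (I.2.1.trans I'.2.1.symm) (hF _ I.2.2.2)
      (hK _ I'.2.2.2.1 I'.2.2.2.2).1 I.2.2.1 h1
    obtain ⟨x, hx, hx'⟩ := (hK _ I'.2.2.2.1 I'.2.2.2.2).2
    apply hx'
    rw [← h2] at hx ⊢
    rw [h3 x hx, h2]
  · exfalso
    have h1 := congrArg Subtype.val h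
    change I.1.image (K I.1) = I'.1.image (F I'.1) at h1
    obtain ⟨h2, h3⟩ := key (I'.2.1.trans I.2.1.symm) (hF _ I'.2.2.2)
      (hK _ I.2.2.2.1 I.2.2.2.2).1 I'.2.2.1 h1.symm
    obtain ⟨x, hx, hx'⟩ := (hK _ I.2.2.2.1 I.2.2.2.2).2
    apply hx'
    rw [← h2] at hx ⊢
    rw [h3 x hx, h2]
  · have h1 := congrArg Subtype.val h
    change I.1.image (K I.1) = I'.1.image (K I'.1) at h1
    have h2 := (key (I.2.1.trans I'.2.1.symm) (hK _ I.2.2.2.1 I.2.2.2.2).1
      (hK _ I'.2.2.2.1 I'.2.2.2.2).1 I.2.2.1 h1).1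
    rw [Subtype.ext h2]

end Pool.Agent.HAR.H76
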